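import Pool.Agent.MP_0c5eb8_lc.H36.Gadget

set_option autoImplicit false

namespace Pool.Agent.Results.MP_0c5eb8_lc.InP

/-- A set `F` of positions in the list `E` of hyperedges is independent in the hypergraphic matroid:
every nonempty subfamily `X` of `F` covers at least `|X| + 1` vertices. -/
def Indep (E : List (Finset ℕ)) (F : Finset ℕ) : Prop :=
  ∀ X ⊆ F, X.Nonempty → X.card + 1 ≤ (X.biUnion fun i => E.getD i ∅).card

/-- Matroid matching in hypergraphic matroids is solved by a deterministic polynomial time machine: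
on the input `(V, E, π)` it returns the largest number of pairs of `π` with independent union. -/
theorem result : ∃ f : Finset ℕ × List (Finset ℕ) × List (ℕ × ℕ) → ℕ, N68a2faeb.IsPolyTime f ∧
    ∀ (V : Finset ℕ) (E : List (Finset ℕ)) (π : List (ℕ × ℕ)),
      (∀ e ∈ E, e.Nonempty ∧ e ⊆ V) →
      (π.flatMap fun p => [p.1, p.2]).Perm (List.range E.length) →
      IsGreatest {k | ∃ S ⊆ π.toFinset, S.card = k ∧ Indep E (S.biUnion fun p => {p.1, p.2})}
        (f (V, E, π)) :=
  ⟨Pool.Agent.MP_0c5eb8_lc.H36.answer, Pool.Agent.MP_0c5eb8_lc.H36.pt_answer.isPolyTime,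
    fun _ _ _ h1 h2 => (Pool.Agent.MP_0c5eb8_lc.H36.setup (fun e he => (h1 e he).2) h2).greatest⟩

end Pool.Agent.Results.MP_0c5eb8_lc.InP
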